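import Pool.Agent.H51.LZ.Ch

/-!
# A positive Lelong number at one point makes the function `-∞` on the closure of its orbit
-/

set_option autoImplicit false

open Set Filter Topology Metric MeasureTheory
open scoped Manifold

namespace Pool.Agent.H9.LZ

open Pool.Agent.H51.LZ

variable {n : ℕ} {X : Type} [TopologicalSpace X] [ChartedSpace (Cn n) X]

/-- The mean value of `log ‖z‖` on a circle which does not surround the origin. -/
theorem circleAverage_log_norm {c : ℂ} {ρ : ℝ} (hρ : 0 < ρ) (h : ρ < ‖c‖) :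
    Real.circleAverage (fun z : ℂ => Real.log ‖z‖) c ρ = Real.log ‖c‖ := by
  have h1 := circleAverage_log_norm_sub_const_eq_log_radius_add_posLog (a := 0) (c := c) hρ.ne'
  simp only [sub_zero] at h1
  rw [h1, Real.posLog_eq_log, Real.log_mul (inv_ne_zero hρ.ne') (by linarith [hρ.trans h]),
    Real.log_inv]
  · ring
  · rw [abs_of_nonneg (by positivity)]
    rw [inv_mul_eq_div, le_div_iff₀ hρ, one_mul]
    exact h.le

/-- `φ` is at most `ε log r + K` on the ball of radius `r` about `x` in the chart `e`, for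
arbitrarily small `r`. -/
def Pole (φ : X → EReal) (ε : ℝ) (e : OpenPartialHomeomorph X (Cn n)) (x : X) : Prop :=
  ∃ K : ℝ, ∃ᶠ r : ℝ in 𝓝[>] 0, ∀ y ∈ e.source, ‖e y - e x‖ ≤ r →
    φ y ≤ ((ε * Real.log r + K : ℝ) : EReal)

theorem exists_pole {φ : X → EReal} {x : X} (hx : ¬ ZeroLelongAt n φ x) :
    ∃ ε : ℝ, 0 < ε ∧ ∃ e ∈ atlas (Cn n) X, x ∈ e.source ∧ Pole φ ε e x := by
  unfold ZeroLelongAt at hx
  push Not at hx
  obtain ⟨e, he, hxe, ε, hε, hf⟩ := hx
  refine ⟨ε, hε, e, he, hxe, 0, ?_⟩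
  refine hf.mono fun r hr y hy hyr => ?_
  simpa using (hr y hy hyr).le

/-- Transport of the pole by a biholomorphic map. -/
theorem Pole.transport [IsManifold 𝓘(ℂ, Cn n) 1 X] {φ : X → EReal} {ε : ℝ}
    {e e' : OpenPartialHomeomorph X (Cn n)} (he : e ∈ atlas (Cn n) X)
    (he' : e' ∈ atlas (Cn n) X) {x : X} (hx : x ∈ e.source) (h : Pole φ ε e x) (g : X ≃ₜ X)
    (hg' : MDifferentiable 𝓘(ℂ, Cn n) 𝓘(ℂ, Cn n) g.symm) {A : ℝ}
    (hA : ∀ y, φ (g y) ≤ φ y + (A : EReal)) (hgx : g x ∈ e'.source) :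
    Pole φ ε e' (g x) := by
  obtain ⟨K, hK⟩ := h
  -- the map in the charts
  set F : Cn n → Cn n := fun z => e (g.symm (e'.symm z)) with hF
  have hd : DifferentiableAt ℂ F (e' (g x)) := by
    have h1 : MDifferentiableAt 𝓘(ℂ, Cn n) 𝓘(ℂ, Cn n) e'.symm (e' (g x)) :=
      mdifferentiableAt_atlas_symm he' (e'.map_source hgx)
    have h2 : MDifferentiableAt 𝓘(ℂ, Cn n) 𝓘(ℂ, Cn n) g.symm (e'.symm (e' (g x))) := hg' _
    have h3 : MDifferentiableAt 𝓘(ℂ, Cn n) 𝓘(ℂ, Cn n) e (g.symm (e'.symm (e' (g x)))) := by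
      refine mdifferentiableAt_atlas he ?_
      rw [e'.left_inv hgx, g.symm_apply_apply]
      exact hx
    have h4 := (h3.comp _ h2).comp _ h1
    rw [← mdifferentiableAt_iff_differentiableAt]
    exact h4
  obtain ⟨C, hC⟩ := hd.isBigO_sub.bound
  set C' : ℝ := max C 1 with hC'
  have hC'0 : 0 < C' := lt_of_lt_of_le one_pos (le_max_right _ _)
  have hO : ∀ᶠ z in 𝓝 (e' (g x)), g.symm (e'.symm z) ∈ e.source := by
    have hc : ContinuousAt (fun z => g.symm (e'.symm z)) (e' (g x)) :=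
      g.symm.continuous.continuousAt.comp (e'.continuousAt_symm (e'.map_source hgx))
    refine hc.eventually (e.open_source.mem_nhds ?_)
    simp only [e'.left_inv hgx, g.symm_apply_apply]
    exact hx
  obtain ⟨δ, hδ, hball⟩ := Metric.eventually_nhds_iff.1 (hC.and hO)
  refine ⟨K + A + ε * Real.log C', ?_⟩
  have ht : Tendsto (fun r : ℝ => r / C') (𝓝[>] 0) (𝓝[>] 0) := by
    refine tendsto_nhdsWithin_iff.2 ⟨?_, ?_⟩
    · have : Tendsto (fun r : ℝ => r / C') (𝓝 0) (𝓝 (0 / C')) :=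
        (continuous_id.div_const C').tendsto 0
      rw [zero_div] at this
      exact this.mono_left nhdsWithin_le_nhds
    · filter_upwards [self_mem_nhdsWithin] with r hr
      exact div_pos hr hC'0
  refine ht.frequently ?_
  have hsmall : ∀ᶠ r : ℝ in 𝓝[>] 0, r / C' < δ ∧ 0 < r := by
    have h1 : ∀ᶠ r : ℝ in 𝓝[>] 0, r / C' < δ := by
      have := ht.eventually (nhdsWithin_le_nhds (Iio_mem_nhds hδ))
      exact this
    exact h1.and self_mem_nhdsWithin
  refine (hK.and_eventually hsmall).mono ?_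
  rintro r ⟨hr, hrδ, hr0⟩ y hy hyr
  have hdist : dist (e' y) (e' (g x)) < δ := by
    rw [dist_eq_norm]
    exact lt_of_le_of_lt hyr hrδ
  obtain ⟨h1, h2⟩ := hball hdist
  rw [e'.left_inv hy] at h2
  have h3 : ‖e (g.symm y) - e x‖ ≤ r := by
    have h4 : F (e' y) = e (g.symm y) := by simp only [hF, e'.left_inv hy]
    have h5 : F (e' (g x)) = e x := by simp only [hF, e'.left_inv hgx, g.symm_apply_apply]
    rw [h4, h5] at h1
    calc ‖e (g.symm y) - e x‖ ≤ C * ‖e' y - e' (g x)‖ := h1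
      _ ≤ C' * ‖e' y - e' (g x)‖ := mul_le_mul_of_nonneg_right (le_max_left _ _) (norm_nonneg _)
      _ ≤ C' * (r / C') := mul_le_mul_of_nonneg_left hyr hC'0.le
      _ = r := by field_simp
  have h6 := hr (g.symm y) h2 h3
  have h7 := hA (g.symm y)
  rw [g.apply_symm_apply] at h7
  refine h7.trans ?_
  calc φ (g.symm y) + (A : EReal) ≤ ((ε * Real.log r + K : ℝ) : EReal) + (A : EReal) :=
        add_le_add_left h6 _
    _ = ((ε * Real.log (r / C') + (K + A + ε * Real.log C') : ℝ) : EReal) := by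
        rw [← EReal.coe_add, Real.log_div hr0.ne' hC'0.ne']
        congr 1
        ring

theorem Pole.iterate [IsManifold 𝓘(ℂ, Cn n) 1 X] {φ : X → EReal} {ε : ℝ}
    {e : OpenPartialHomeomorph X (Cn n)} (he : e ∈ atlas (Cn n) X) {x : X} (hx : x ∈ e.source)
    (h : Pole φ ε e x) (g : X ≃ₜ X)
    (hg' : MDifferentiable 𝓘(ℂ, Cn n) 𝓘(ℂ, Cn n) g.symm) {A : ℝ}
    (hA : ∀ y, φ (g y) ≤ φ y + (A : EReal)) (k : ℕ) :
    ∀ e' ∈ atlas (Cn n) X, g^[k] x ∈ e'.source → Pole φ ε e' (g^[k] x) := by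
  induction k with
  | zero =>
    intro e' he' hxe'
    have h1 := h.transport he he' hx (Homeomorph.refl X) (A := 0) mdifferentiable_id
      (fun y => by simp) (by simpa using hxe')
    simpa using h1
  | succ k ih =>
    intro e' he' hxe'
    rw [Function.iterate_succ_apply'] at hxe' ⊢
    have h1 := ih (chartAt (Cn n) (g^[k] x)) (chart_mem_atlas _ _) (mem_chart_source _ _)
    exact h1.transport (chart_mem_atlas _ _) he' (mem_chart_source _ _) g hg' hA hxe'

/-- The local statement: if `z` is near the centre `z₀` of a chart ball on which `u + φ` is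
plurisubharmonic, at most `M`, and `φ` has a pole at `z`, then `u + φ` at the centre is at most
`M + (ε / 2) log (‖z₀ - z‖ / R)`. -/
theorem centre_le [IsManifold 𝓘(ℂ, Cn n) 1 X] {φ : X → EReal} {ε : ℝ} (hε : 0 < ε)
    {e : OpenPartialHomeomorph X (Cn n)} (he : e ∈ atlas (Cn n) X) {V : Set X} {u : X → ℝ}
    (hpsh : Psh n V (fun x => (u x : EReal) + φ x)) {z₀ : Cn n} {R : ℝ} (hR : 0 < R)
    (hball : ∀ z ∈ closedBall z₀ (3 * R), z ∈ e.target ∧ e.symm z ∈ V) {M M' : ℝ}
    (hM : ∀ z ∈ closedBall z₀ (3 * R), (u (e.symm z) : EReal) + φ (e.symm z) ≤ (M : EReal))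
    (hM' : ∀ z ∈ closedBall z₀ (3 * R), u (e.symm z) ≤ M')
    {x : X} (hx : x ∈ e.source) (hne : e x ≠ z₀) (hlt : ‖e x - z₀‖ < R) (hpole : Pole φ ε e x) :
    (u (e.symm z₀) : EReal) + φ (e.symm z₀) ≤
      ((M + ε / 2 * Real.log (‖z₀ - e x‖ / R) : ℝ) : EReal) := by
  obtain ⟨K, hK⟩ := hpole
  set a : Cn n := e x with ha
  set d : ℝ := ‖z₀ - a‖ with hd
  have hd0 : 0 < d := norm_pos_iff.2 (sub_ne_zero.2 hne.symm)
  have hdR : d < R := by rw [hd, norm_sub_rev]; exact hlt
  set v : Cn n := ((d : ℂ)⁻¹) • (z₀ - a) with hv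
  have hv1 : ‖v‖ = 1 := by
    rw [hv, norm_smul, norm_inv, Complex.norm_real, Real.norm_of_nonneg hd0.le, ← hd]
    exact inv_mul_cancel₀ hd0.ne'
  have hdv : a + (d : ℂ) • v = z₀ := by
    rw [hv, smul_smul, mul_inv_cancel₀ (by exact_mod_cast hd0.ne'), one_smul]
    abel
  clear_value v
  have hline : ∀ ζ : ℂ, ‖ζ‖ ≤ R → a + ζ • v ∈ closedBall z₀ (3 * R) := by
    intro ζ hζ
    rw [mem_closedBall, dist_eq_norm]
    calc ‖a + ζ • v - z₀‖ = ‖(a - z₀) + ζ • v‖ := by congr 1; abel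
      _ ≤ ‖a - z₀‖ + ‖ζ • v‖ := norm_add_le _ _
      _ ≤ R + R := by
          refine add_le_add hlt.le ?_
          rw [norm_smul, hv1, mul_one]
          exact hζ
      _ ≤ 3 * R := by linarith
  -- a small radius
  have hsmall : ∀ᶠ r : ℝ in 𝓝[>] 0, (r < d ∧ 0 < r) ∧
      M' + (ε * Real.log r + K) - M - ε / 2 * Real.log (r / R) ≤ 0 := by
    have h1 : ∀ᶠ r : ℝ in 𝓝[>] 0, r < d := nhdsWithin_le_nhds (Iio_mem_nhds hd0)
    have h2 : ∀ᶠ r : ℝ in 𝓝[>] 0,
        Real.log r ≤ -(2 / ε) * (M' + K - M + ε / 2 * Real.log R) :=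
      Real.tendsto_log_nhdsGT_zero.eventually (eventually_le_atBot _)
    filter_upwards [h1, self_mem_nhdsWithin, h2] with r hr hr0 hr2
    refine ⟨⟨hr, hr0⟩, ?_⟩
    have hr0' : (0 : ℝ) < r := hr0
    rw [Real.log_div hr0'.ne' hR.ne']
    have h3 := mul_le_mul_of_nonneg_left hr2 (show 0 ≤ ε / 2 by positivity)
    have h4 : ε / 2 * (-(2 / ε) * (M' + K - M + ε / 2 * Real.log R)) =
        -(M' + K - M + ε / 2 * Real.log R) := by field_simp
    rw [h4] at h3
    linarith
  obtain ⟨r, hr, ⟨⟨hrd, hr0⟩, hrM⟩⟩ := (hK.and_eventually hsmall).exists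
  -- the annulus and the function
  set D : ℂ → EReal := fun ζ => ((u (e.symm (a + ζ • v)) : EReal) + φ (e.symm (a + ζ • v))) +
    ((-(M + ε / 2 * Real.log (‖ζ‖ / R)) : ℝ) : EReal) with hD
  have hcomp : IsCompact (closedBall (0 : ℂ) R ∩ {ζ : ℂ | r ≤ ‖ζ‖}) :=
    (isCompact_closedBall _ _).inter_right (isClosed_le continuous_const continuous_norm)
  have hlogc : ContinuousOn (fun ζ : ℂ => -(M + ε / 2 * Real.log (‖ζ‖ / R)))
      (closedBall (0 : ℂ) R ∩ {ζ : ℂ | r ≤ ‖ζ‖}) := by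
    refine (continuousOn_const.add (continuousOn_const.mul (ContinuousOn.log
      (continuous_norm.div_const R).continuousOn fun ζ hζ => ?_))).neg
    have : 0 < ‖ζ‖ := lt_of_lt_of_le hr0 hζ.2
    positivity
  have husc : UpperSemicontinuousOn D (closedBall (0 : ℂ) R ∩ {ζ : ℂ | r ≤ ‖ζ‖}) := by
    have h1 : UpperSemicontinuousOn (fun ζ : ℂ => (u (e.symm (a + ζ • v)) : EReal) +
        φ (e.symm (a + ζ • v))) (closedBall (0 : ℂ) R ∩ {ζ : ℂ | r ≤ ‖ζ‖}) := by
      have hc : ContinuousOn (fun ζ : ℂ => e.symm (a + ζ • v))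
          (closedBall (0 : ℂ) R ∩ {ζ : ℂ | r ≤ ‖ζ‖}) := by
        refine e.continuousOn_symm.comp (by fun_prop) fun ζ hζ => ?_
        exact (hball _ (hline ζ (by simpa using hζ.1))).1
      intro ζ hζ y hy
      have h2 := hpsh.1 (e.symm (a + ζ • v)) (hball _ (hline ζ (by simpa using hζ.1))).2 y hy
      have h3 : Tendsto (fun ζ : ℂ => e.symm (a + ζ • v))
          (𝓝[closedBall (0 : ℂ) R ∩ {ζ : ℂ | r ≤ ‖ζ‖}] ζ) (𝓝[V] (e.symm (a + ζ • v))) := by
        refine tendsto_nhdsWithin_iff.2 ⟨hc ζ hζ, ?_⟩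
        filter_upwards [self_mem_nhdsWithin] with ζ' hζ'
        exact (hball _ (hline ζ' (by simpa using hζ'.1))).2
      exact h3.eventually h2
    have h2 : UpperSemicontinuousOn (fun ζ : ℂ =>
        ((-(M + ε / 2 * Real.log (‖ζ‖ / R)) : ℝ) : EReal))
        (closedBall (0 : ℂ) R ∩ {ζ : ℂ | r ≤ ‖ζ‖}) :=
      (continuous_coe_real_ereal.comp_continuousOn hlogc).upperSemicontinuousOn
    refine h1.add' h2 fun ζ hζ => ?_
    exact EReal.continuousAt_add (Or.inr (EReal.coe_ne_bot _)) (Or.inr (EReal.coe_ne_top _))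
  have htop : ∀ ζ ∈ closedBall (0 : ℂ) R ∩ {ζ : ℂ | r ≤ ‖ζ‖}, D ζ ≠ ⊤ := by
    intro ζ hζ
    refine (EReal.add_lt_top ?_ (EReal.coe_ne_top _)).ne
    exact ne_top_of_le_ne_top (EReal.coe_ne_top M) (hM _ (hline ζ (by simpa using hζ.1)))
  have key := max_principle (K := closedBall (0 : ℂ) R ∩ {ζ : ℂ | r ≤ ‖ζ‖})
    (W := {ζ : ℂ | r < ‖ζ‖ ∧ ‖ζ‖ < R}) hcomp husc htop (c := 0) ?_ ?_ (d : ℂ) ?_
  · -- conclusion
    simp only [hD, hdv, Complex.norm_real, Real.norm_of_nonneg hd0.le] at key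
    have h1 := add_le_add_left key ((M + ε / 2 * Real.log (d / R) : ℝ) : EReal)
    rw [add_assoc, ← EReal.coe_add] at h1
    simpa using h1
  · -- the boundary
    intro ζ hζ hζW
    have hζR : ‖ζ‖ ≤ R := by simpa using hζ.1
    have hζr : r ≤ ‖ζ‖ := hζ.2
    have hcases : ‖ζ‖ = r ∨ ‖ζ‖ = R := by
      by_contra hcon
      push Not at hcon
      exact hζW ⟨lt_of_le_of_ne hζr (Ne.symm hcon.1), lt_of_le_of_ne hζR hcon.2⟩
    have hin := hline ζ hζR
    rcases hcases with h | h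
    · have h1 : φ (e.symm (a + ζ • v)) ≤ ((ε * Real.log r + K : ℝ) : EReal) := by
        refine hr _ (e.map_target (hball _ hin).1) ?_
        rw [e.right_inv (hball _ hin).1, add_sub_cancel_left, norm_smul, hv1, mul_one, h]
      have h2 : (u (e.symm (a + ζ • v)) : EReal) ≤ (M' : EReal) := by
        exact_mod_cast hM' _ hin
      calc D ζ ≤ ((M' : EReal) + ((ε * Real.log r + K : ℝ) : EReal)) +
            ((-(M + ε / 2 * Real.log (‖ζ‖ / R)) : ℝ) : EReal) :=
            add_le_add_left (add_le_add h2 h1) _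
        _ = ((M' + (ε * Real.log r + K) - M - ε / 2 * Real.log (r / R) : ℝ) : EReal) := by
            rw [h, ← EReal.coe_add, ← EReal.coe_add]
            congr 1
            ring
        _ ≤ ((0 : ℝ) : EReal) := by exact_mod_cast hrM
    · calc D ζ ≤ (M : EReal) + ((-(M + ε / 2 * Real.log (‖ζ‖ / R)) : ℝ) : EReal) :=
            add_le_add_left (hM _ hin) _
        _ = ((0 : ℝ) : EReal) := by
            rw [h, div_self hR.ne', Real.log_one, ← EReal.coe_add]
            congr 1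
            ring
  · -- the sub-mean value inequality
    intro ζ hζW hζ
    have h0 : 0 < min (‖ζ‖ - r) (R - ‖ζ‖) :=
      lt_min (sub_pos.2 hζW.1) (sub_pos.2 hζW.2)
    set ρ : ℝ := min (‖ζ‖ - r) (R - ‖ζ‖) with hρ
    have hρ1 : ρ ≤ ‖ζ‖ - r := min_le_left _ _
    have hρ2 : ρ ≤ R - ‖ζ‖ := min_le_right _ _
    have hcb : ∀ w : ℂ, ‖w - ζ‖ ≤ ρ → ‖w‖ ≤ R ∧ r ≤ ‖w‖ := by
      intro w hw
      have h1 : ‖w‖ ≤ ‖ζ‖ + ‖w - ζ‖ := by
        calc ‖w‖ = ‖ζ + (w - ζ)‖ := by congr 1; ring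
          _ ≤ _ := norm_add_le _ _
      have h2 : ‖ζ‖ ≤ ‖w‖ + ‖w - ζ‖ := by
        calc ‖ζ‖ = ‖w - (w - ζ)‖ := by congr 1; ring
          _ ≤ _ := norm_sub_le _ _
      constructor <;> linarith
    refine ⟨ρ, h0, fun w hw => ?_, fun b hb hDb => ?_⟩
    · have h1 := hcb w (by rw [mem_sphere, dist_eq_norm] at hw; exact hw.le)
      exact ⟨by simpa using h1.1, h1.2⟩
    · -- the disc
      have hdisc : IsDisc n V (fun z : ℂ => e.symm ((a + ζ • v) + z • ((ρ : ℂ) • v))) := by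
        refine isDisc_affine he _ _ fun z hz => ?_
        have h1 : (a + ζ • v) + z • ((ρ : ℂ) • v) = a + (ζ + ρ * z) • v := by
          rw [smul_smul, add_assoc, ← add_smul]
          congr 3
          ring
        rw [h1]
        refine hball _ (hline _ (hcb _ ?_).1)
        rw [add_sub_cancel_left, norm_mul, Complex.norm_real, Real.norm_of_nonneg h0.le]
        calc ρ * ‖z‖ ≤ ρ * 1 := mul_le_mul_of_nonneg_left hz h0.le
          _ = ρ := mul_one _
      set b' : ℂ → ℝ := fun z => b (ρ * z + ζ) + (M + ε / 2 * Real.log (‖ρ * z + ζ‖ / R))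
        with hb'
      have hmem : ∀ z ∈ sphere (0 : ℂ) 1, ρ * z + ζ ∈ sphere ζ ρ := by
        intro z hz
        have hz1 : ‖z‖ = 1 := by simpa using hz
        rw [mem_sphere, dist_eq_norm, add_sub_cancel_right, norm_mul, Complex.norm_real,
          Real.norm_of_nonneg h0.le, hz1, mul_one]
      have hpos : ∀ z ∈ sphere (0 : ℂ) 1, 0 < ‖ρ * z + ζ‖ := by
        intro z hz
        have h1 := hmem z hz
        rw [mem_sphere, dist_eq_norm] at h1
        exact lt_of_lt_of_le hr0 (hcb _ h1.le).2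
      have hb'c : ContinuousOn b' (sphere 0 1) := by
        refine ContinuousOn.add (hb.comp (by fun_prop) hmem) ?_
        refine continuousOn_const.add (continuousOn_const.mul (ContinuousOn.log
          (by fun_prop) fun z hz => ?_))
        have := hpos z hz
        positivity
      have hle : ∀ z ∈ sphere (0 : ℂ) 1,
          (u (e.symm ((a + ζ • v) + z • ((ρ : ℂ) • v))) : EReal) +
            φ (e.symm ((a + ζ • v) + z • ((ρ : ℂ) • v))) ≤ (b' z : EReal) := by
        intro z hz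
        have h1 : (a + ζ • v) + z • ((ρ : ℂ) • v) = a + (ρ * z + ζ) • v := by
          rw [smul_smul, add_assoc, ← add_smul]
          congr 2
          ring
        rw [h1]
        have h2 := hDb _ (hmem z hz)
        simp only [hD] at h2
        have h3 := add_le_add_left h2 ((M + ε / 2 * Real.log (‖ρ * z + ζ‖ / R) : ℝ) : EReal)
        rw [add_assoc, ← EReal.coe_add] at h3
        simpa [hb'] using h3
      have h1 := hpsh.2.2 _ hdisc b' hb'c hle
      simp only [zero_smul, add_zero] at h1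
      have hcirc1 : CircleIntegrable b ζ ρ := by
        refine ContinuousOn.circleIntegrable h0.le hb
      have hlogcirc : ContinuousOn (fun z : ℂ => Real.log ‖z‖) (sphere ζ ρ) := by
        refine ContinuousOn.log continuous_norm.continuousOn fun z hz => ?_
        rw [mem_sphere, dist_eq_norm] at hz
        exact (lt_of_lt_of_le hr0 (hcb _ hz.le).2).ne'
      have h2 : Real.circleAverage b' 0 1 =
          Real.circleAverage b ζ ρ + (M + ε / 2 * Real.log (‖ζ‖ / R)) := by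
        have e1 : Real.circleAverage b' 0 1 = Real.circleAverage
            (fun z => b z + (M + ε / 2 * Real.log (‖z‖ / R))) ζ ρ := by
          rw [Real.circleAverage_eq_circleAverage_zero_one (f := fun z =>
            b z + (M + ε / 2 * Real.log (‖z‖ / R)))]
        have e2 : Real.circleAverage (fun z => b z + (M + ε / 2 * Real.log (‖z‖ / R))) ζ ρ =
            Real.circleAverage (fun z => b z +
              ((M - ε / 2 * Real.log R) + (ε / 2) • Real.log ‖z‖)) ζ ρ := by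
          refine Real.circleAverage_congr_sphere fun z hz => ?_
          rw [abs_of_pos h0, mem_sphere, dist_eq_norm] at hz
          have hz0 := lt_of_lt_of_le hr0 (hcb _ hz.le).2
          simp only [smul_eq_mul]
          rw [Real.log_div hz0.ne' hR.ne']
          ring
        have hsm : ContinuousOn (fun z : ℂ => (ε / 2) • Real.log ‖z‖) (sphere ζ ρ) :=
          hlogcirc.const_smul (ε / 2)
        have hI : CircleIntegrable (fun z : ℂ => (ε / 2) • Real.log ‖z‖) ζ ρ :=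
          ContinuousOn.circleIntegrable h0.le hsm
        have hI' : CircleIntegrable (fun z : ℂ =>
            (M - ε / 2 * Real.log R) + (ε / 2) • Real.log ‖z‖) ζ ρ :=
          ContinuousOn.circleIntegrable h0.le (continuousOn_const.add hsm)
        rw [e1, e2, Real.circleAverage_fun_add hcirc1 hI',
          Real.circleAverage_fun_add (circleIntegrable_const _ _ _) hI,
          Real.circleAverage_const, Real.circleAverage_fun_smul, circleAverage_log_norm h0
            (by linarith), smul_eq_mul, Real.log_div (by linarith [hζW.1]) hR.ne']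
        ring
      rw [h2] at h1
      calc D ζ ≤ ((Real.circleAverage b ζ ρ + (M + ε / 2 * Real.log (‖ζ‖ / R)) : ℝ) : EReal) +
            ((-(M + ε / 2 * Real.log (‖ζ‖ / R)) : ℝ) : EReal) := add_le_add_left h1 _
        _ = ((Real.circleAverage b ζ ρ : ℝ) : EReal) := by
            rw [← EReal.coe_add]
            congr 1
            ring
  · exact ⟨by simpa [abs_of_pos hd0] using hdR.le, by
      simpa [abs_of_pos hd0] using hrd.le⟩

/-- MAIN THEOREM of this file: if `φ` has a positive Lelong number at `x` and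
`φ ∘ g ≤ φ + A` for a biholomorphic map `g`, then `φ = -∞` on the closure of the forward orbit
of `x`. -/
theorem bot_on_closure [IsManifold 𝓘(ℂ, Cn n) 1 X] {φ : X → EReal} {V : X → Set X}
    {u : X → X → ℝ} (hV : ∀ p, IsOpen (V p)) (hp : ∀ p, p ∈ V p)
    (hu : ∀ p, ContinuousOn (u p) (V p))
    (hpsh : ∀ p, Psh n (V p) (fun x => (u p x : EReal) + φ x)) (g : X ≃ₜ X)
    (_hg : MDifferentiable 𝓘(ℂ, Cn n) 𝓘(ℂ, Cn n) g)
    (hg' : MDifferentiable 𝓘(ℂ, Cn n) 𝓘(ℂ, Cn n) g.symm) {A : ℝ}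
    (hA : ∀ y, φ (g y) ≤ φ y + (A : EReal)) {x : X} (hx : ¬ ZeroLelongAt n φ x) :
    ∀ y ∈ closure (range fun k : ℕ => g^[k] x), φ y = ⊥ := by
  intro y₀ hy₀
  obtain ⟨ε, hε, e₁, he₁, hxe₁, hpole₁⟩ := exists_pole hx
  have hpole := fun k : ℕ => hpole₁.iterate he₁ hxe₁ g hg' hA k
  set e := chartAt (Cn n) y₀ with he_def
  have he : e ∈ atlas (Cn n) X := chart_mem_atlas _ _
  have hye : y₀ ∈ e.source := mem_chart_source _ _
  -- a ball in the chart
  have hopen : IsOpen (e.target ∩ e.symm ⁻¹' (V y₀)) :=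
    e.continuousOn_symm.isOpen_inter_preimage e.open_target (hV y₀)
  have hmem : e y₀ ∈ e.target ∩ e.symm ⁻¹' (V y₀) := by
    refine ⟨e.map_source hye, ?_⟩
    rw [mem_preimage, e.left_inv hye]
    exact hp y₀
  obtain ⟨ρ, hρ, hsub⟩ := Metric.isOpen_iff.1 hopen _ hmem
  set R : ℝ := ρ / 6 with hR
  have hR0 : 0 < R := by positivity
  have hball : ∀ z ∈ closedBall (e y₀) (3 * R), z ∈ e.target ∧ e.symm z ∈ V y₀ := by
    intro z hz
    exact hsub (closedBall_subset_ball (by rw [hR]; linarith) hz)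
  have hK : IsCompact (closedBall (e y₀) (3 * R)) := isCompact_closedBall _ _
  have hsymm : ContinuousOn (fun z => e.symm z) (closedBall (e y₀) (3 * R)) :=
    e.continuousOn_symm.mono fun z hz => (hball z hz).1
  have hKne : (closedBall (e y₀) (3 * R)).Nonempty := ⟨e y₀, mem_closedBall_self (by positivity)⟩
  -- upper bound of `u + φ`
  have husc : UpperSemicontinuousOn (fun z => (u y₀ (e.symm z) : EReal) + φ (e.symm z))
      (closedBall (e y₀) (3 * R)) := by
    intro z hz c hc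
    have h2 := (hpsh y₀).1 (e.symm z) (hball z hz).2 c hc
    have h3 : Tendsto (fun z => e.symm z) (𝓝[closedBall (e y₀) (3 * R)] z)
        (𝓝[V y₀] (e.symm z)) := by
      refine tendsto_nhdsWithin_iff.2 ⟨hsymm z hz, ?_⟩
      filter_upwards [self_mem_nhdsWithin] with z' hz'
      exact (hball z' hz').2
    exact h3.eventually h2
  obtain ⟨M, hM⟩ : ∃ M : ℝ, ∀ z ∈ closedBall (e y₀) (3 * R),
      (u y₀ (e.symm z) : EReal) + φ (e.symm z) ≤ (M : EReal) := by
    obtain ⟨z₁, hz₁, hmax⟩ := husc.exists_isMaxOn hKne hK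
    have h1 := (hpsh y₀).2.1 (e.symm z₁) (hball z₁ hz₁).2
    refine ⟨((u y₀ (e.symm z₁) : EReal) + φ (e.symm z₁)).toReal, fun z hz => ?_⟩
    exact (hmax hz).trans (EReal.le_coe_toReal h1)
  obtain ⟨M', hM'⟩ : ∃ M' : ℝ, ∀ z ∈ closedBall (e y₀) (3 * R), u y₀ (e.symm z) ≤ M' := by
    have h1 : ContinuousOn (fun z => u y₀ (e.symm z)) (closedBall (e y₀) (3 * R)) :=
      (hu y₀).comp hsymm fun z hz => (hball z hz).2
    obtain ⟨z₁, hz₁, hmax⟩ := hK.exists_isMaxOn hKne h1
    exact ⟨_, fun z hz => hmax hz⟩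
  -- it suffices to bound `u + φ` at `y₀` by every real number
  suffices h : ∀ c : ℝ, (u y₀ y₀ : EReal) + φ y₀ ≤ (c : EReal) by
    have h1 : (u y₀ y₀ : EReal) + φ y₀ = ⊥ := by
      by_contra hne
      have h2 : (u y₀ y₀ : EReal) + φ y₀ ≠ ⊤ := (hpsh y₀).2.1 y₀ (hp y₀)
      have h3 := h (((u y₀ y₀ : EReal) + φ y₀).toReal - 1)
      rw [← EReal.coe_toReal h2 hne] at h3
      have h4 := EReal.coe_le_coe_iff.1 h3
      rw [EReal.toReal_coe] at h4
      linarith
    rcases EReal.add_eq_bot_iff.1 h1 with h2 | h2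
    · exact absurd h2 (EReal.coe_ne_bot _)
    · exact h2
  intro c
  -- the radius
  have hev : ∀ᶠ t : ℝ in 𝓝[>] 0, M + ε / 2 * Real.log (t / R) ≤ c ∧ t < R := by
    have h1 : ∀ᶠ t : ℝ in 𝓝[>] 0, t < R := nhdsWithin_le_nhds (Iio_mem_nhds hR0)
    have h2 : ∀ᶠ t : ℝ in 𝓝[>] 0, Real.log t ≤ (2 / ε) * (c - M) + Real.log R :=
      Real.tendsto_log_nhdsGT_zero.eventually (eventually_le_atBot _)
    filter_upwards [h1, self_mem_nhdsWithin, h2] with t ht ht0 ht2
    refine ⟨?_, ht⟩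
    have ht0' : (0 : ℝ) < t := ht0
    rw [Real.log_div ht0'.ne' hR0.ne']
    have h3 := mul_le_mul_of_nonneg_left ht2 (show 0 ≤ ε / 2 by positivity)
    have h4 : ε / 2 * ((2 / ε) * (c - M) + Real.log R) = c - M + ε / 2 * Real.log R := by
      field_simp
    rw [h4] at h3
    linarith
  rw [eventually_nhdsWithin_iff, Metric.eventually_nhds_iff] at hev
  obtain ⟨δ, hδ, hev⟩ := hev
  -- a point of the orbit
  have hnb : e.source ∩ e ⁻¹' ball (e y₀) (min δ R) ∈ 𝓝 y₀ := by
    refine (e.isOpen_inter_preimage isOpen_ball).mem_nhds ⟨hye, ?_⟩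
    exact mem_ball_self (lt_min hδ hR0)
  obtain ⟨x', ⟨hx'e, hx'b⟩, ⟨k, rfl⟩⟩ := mem_closure_iff_nhds.1 hy₀ _ hnb
  have hx'b' : ‖e (g^[k] x) - e y₀‖ < min δ R := by
    rw [← dist_eq_norm]
    exact hx'b
  have hP := hpole k e he hx'e
  by_cases hne : e (g^[k] x) = e y₀
  · -- the point itself
    have hxy : g^[k] x = y₀ := e.injOn hx'e hye hne
    obtain ⟨K, hKf⟩ := hP
    have h2 : ∀ᶠ r : ℝ in 𝓝[>] 0, 0 < r ∧
        Real.log r ≤ (1 / ε) * (c - u y₀ y₀ - K) := by
      filter_upwards [self_mem_nhdsWithin,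
        Real.tendsto_log_nhdsGT_zero.eventually (eventually_le_atBot _)] with r h1 h2
      exact ⟨h1, h2⟩
    obtain ⟨r, hr, hr0, hr2⟩ := (hKf.and_eventually h2).exists
    have h3 := hr y₀ hye (by rw [hne, sub_self, norm_zero]; exact hr0.le)
    have h4 : ε * Real.log r + K ≤ c - u y₀ y₀ := by
      have h5 := mul_le_mul_of_nonneg_left hr2 hε.le
      have h6 : ε * ((1 / ε) * (c - u y₀ y₀ - K)) = c - u y₀ y₀ - K := by field_simp
      rw [h6] at h5
      linarith
    calc (u y₀ y₀ : EReal) + φ y₀ ≤ (u y₀ y₀ : EReal) + ((c - u y₀ y₀ : ℝ) : EReal) :=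
          add_le_add_right (h3.trans (by exact_mod_cast h4)) _
      _ = (c : EReal) := by
          rw [← EReal.coe_add]
          congr 1
          ring
  · have h1 := centre_le hε he (hpsh y₀) hR0 hball hM hM' hx'e hne
      (lt_of_lt_of_le hx'b' (min_le_right _ _)) hP
    rw [e.left_inv hye] at h1
    refine h1.trans ?_
    have h2 : 0 < ‖e y₀ - e (g^[k] x)‖ := norm_pos_iff.2 (sub_ne_zero.2 (Ne.symm hne))
    have h3 := hev (y := ‖e y₀ - e (g^[k] x)‖) (by
      rw [Real.dist_eq, sub_zero, abs_of_pos h2, norm_sub_rev]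
      exact lt_of_lt_of_le hx'b' (min_le_left _ _)) h2
    exact_mod_cast h3.1

end Pool.Agent.H9.LZ
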